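import Mathlib
import Pool.Agent.Helper81.MapRenorm.Defs
import Pool.Agent.Helper81.MapRenorm.EllOne

/-!
# `ℓ_1` has an equivalent norm without the metric approximation property
-/

open Pool.Agent.Helper81.MapRenorm
open scoped ENNReal

namespace Pool.Agent.Results.MP_e8a68b_an.EllOne

/-- `ℓ_1` (real or complex) has an equivalent norm `N` under which it fails the metric approximation
property, and even the `lam`-approximation property for every `lam ≤ 1 + 1 / 2001`. -/
theorem result (𝕜 : Type*) [RCLike 𝕜] :
    HasRenormingFailingAP 𝕜 (lp (fun _ : ℕ => 𝕜) 1) (1 + 1 / 2001) :=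
  Pool.Agent.Helper81.MapRenorm.EllOne.main 𝕜

end Pool.Agent.Results.MP_e8a68b_an.EllOne
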